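import Mathlib

set_option autoImplicit false

namespace Pool.Agent.H36EXT

open ExteriorAlgebra

variable {K : Type*} [Field K] {V : Type*} [AddCommGroup V] [Module K V]

lemma iota_comm (v : V) {b : ℕ} {y : ExteriorAlgebra K V} (hy : y ∈ ⋀[K]^b V) :
    ι K v * y = (-1 : K) ^ b • (y * ι K v) := by
  refine Submodule.pow_induction_on_left' (LinearMap.range (ι K : V →ₗ[K] ExteriorAlgebra K V))
    (C := fun n y _ => ι K v * y = (-1 : K) ^ n • (y * ι K v)) ?_ ?_ ?_ hy
  · intro r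
    rw [pow_zero, one_smul, Algebra.commutes]
  · intro x y i hx hy h1 h2
    rw [mul_add, h1, h2, add_mul, smul_add]
  · rintro m ⟨w, rfl⟩ i x hx h
    have h1 : ι K v * ι K w = - (ι K w * ι K v) := eq_neg_of_add_eq_zero_left (ι_add_mul_swap v w)
    rw [← mul_assoc, h1, neg_mul, mul_assoc, h, mul_smul_comm, Nat.succ_eq_add_one, pow_succ,
      mul_neg_one, neg_smul, mul_assoc]

lemma gcomm {a b : ℕ} {x y : ExteriorAlgebra K V} (hx : x ∈ ⋀[K]^a V) (hy : y ∈ ⋀[K]^b V) :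
    x * y = (-1 : K) ^ (a * b) • (y * x) := by
  refine Submodule.pow_induction_on_left' (LinearMap.range (ι K : V →ₗ[K] ExteriorAlgebra K V))
    (C := fun n x _ => x * y = (-1 : K) ^ (n * b) • (y * x)) ?_ ?_ ?_ hx
  · intro r
    rw [zero_mul, pow_zero, one_smul, Algebra.commutes]
  · intro x z i hx hz h1 h2
    rw [add_mul, h1, h2, mul_add, smul_add]
  · rintro m ⟨w, rfl⟩ i x hx h
    rw [mul_assoc, h, mul_smul_comm, ← mul_assoc, iota_comm w hy, smul_mul_assoc, smul_smul, mul_assoc,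
      Nat.succ_eq_add_one, add_mul, one_mul, pow_add]

lemma mul_mem {a b : ℕ} {x y : ExteriorAlgebra K V} (hx : x ∈ ⋀[K]^a V) (hy : y ∈ ⋀[K]^b V) :
    x * y ∈ ⋀[K]^(a + b) V := by
  unfold exteriorPower
  rw [pow_add]
  exact Submodule.mul_mem_mul hx hy

lemma multi_sq {d : ℕ} (hd : 0 < d) (v : Fin d → V) :
    ιMulti K d v * ιMulti K d v = 0 := by
  obtain ⟨e, rfl⟩ : ∃ e, d = e + 1 := ⟨d - 1, by omega⟩
  have hP : ιMulti K (e + 1) v ∈ ⋀[K]^(e + 1) V :=
    ιMulti_range K (e + 1) ⟨v, rfl⟩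
  have h1 : ιMulti K (e + 1) v = ι K (v 0) * ιMulti K e (Matrix.vecTail v) := by
    rw [ιMulti_succ_apply]
  have hQ : ιMulti K e (Matrix.vecTail v) ∈ ⋀[K]^e V :=
    ιMulti_range K e ⟨_, rfl⟩
  have h0 : ι K (v 0) * ιMulti K (e + 1) v = 0 := by
    rw [ιMulti_apply]
    exact ι_mul_prod_list v 0
  calc ιMulti K (e + 1) v * ιMulti K (e + 1) v
      = ι K (v 0) * (ιMulti K e (Matrix.vecTail v) * ιMulti K (e + 1) v) := by
        conv_lhs => enter [1]; rw [h1]
        rw [mul_assoc]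
    _ = 0 := by
        rw [gcomm hQ hP, mul_smul_comm, ← mul_assoc, h0, zero_mul, smul_zero]

lemma commute_even {a b : ℕ} (ha : Even a) {x y : ExteriorAlgebra K V} (hx : x ∈ ⋀[K]^a V)
    (hy : y ∈ ⋀[K]^b V) : Commute x y := by
  have h := gcomm hx hy
  rw [(ha.mul_right b).neg_one_pow, one_smul] at h
  exact h

lemma pow_char {p d : ℕ} [hp : Fact p.Prime] [CharP K p] (hd : Even d) (h0 : 0 < d)
    {x : ExteriorAlgebra K V} (hx : x ∈ ⋀[K]^d V) : x ^ p = 0 := by
  have hinj : Function.Injective (algebraMap K (ExteriorAlgebra K V)) :=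
    (algebraMap_leftInverse V).injective
  have hch : CharP (ExteriorAlgebra K V) p := charP_of_injective_algebraMap hinj p
  have hp2 : 2 ≤ p := hp.1.two_le
  have hspan := ιMulti_span_fixedDegree K d (M := V)
  rw [← hspan] at hx
  refine Submodule.span_induction (p := fun x _ => x ^ p = 0) ?_ ?_ ?_ ?_ hx
  · rintro _ ⟨v, rfl⟩
    obtain ⟨q, rfl⟩ : ∃ q, p = 2 + q := ⟨p - 2, by omega⟩
    rw [pow_add, pow_two, multi_sq h0, zero_mul]
  · exact zero_pow (by omega)
  · intro x y hx hy h1 h2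
    rw [hspan] at hx hy
    rw [add_pow_char_of_commute p (commute_even hd hx hy), h1, h2, add_zero]
  · intro c x hx h
    rw [smul_pow, h, smul_zero]

lemma sq_zero_odd {d : ℕ} (h2 : (2 : K) ≠ 0) (hd : Odd d) {x : ExteriorAlgebra K V}
    (hx : x ∈ ⋀[K]^d V) : x * x = 0 := by
  have h := gcomm hx hx
  rw [(hd.mul hd).neg_one_pow, neg_one_smul] at h
  have h3 : (2 : K) • (x * x) = 0 := by
    rw [two_smul]
    nth_rewrite 1 [h]
    exact neg_add_cancel _
  exact (smul_eq_zero.1 h3).resolve_left h2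

end Pool.Agent.H36EXT
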