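import Mathlib
import Pool.Agent.H36EXT.Comm

set_option autoImplicit false

namespace Pool.Agent.H36EXT

open ExteriorAlgebra Module

section rank

variable {K : Type*} [Field K] {E : Type*} [AddCommGroup E] [Module K E] [FiniteDimensional K E]

lemma finrank_map_add (L : E →ₗ[K] E) (X : Submodule K E) :
    finrank K (X.map L) + finrank K ↥(X ⊓ LinearMap.ker L) = finrank K X := by
  have h := LinearMap.finrank_range_add_finrank_ker (L.domRestrict X)
  rw [LinearMap.range_domRestrict, LinearMap.ker_domRestrict] at h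
  rw [← h]
  congr 1
  have h2 : (Submodule.comap X.subtype (LinearMap.ker L)).map X.subtype = X ⊓ LinearMap.ker L := by
    rw [Submodule.map_comap_subtype]
  rw [← h2]
  exact (Submodule.equivMapOfInjective X.subtype X.injective_subtype _).finrank_eq.symm

lemma finrank_sup_map (L : E →ₗ[K] E) (U X : Submodule K E) :
    finrank K ↥(U ⊔ X.map L) + finrank K ↥(X ⊓ U.comap L) = finrank K U + finrank K X := by
  have h1 := finrank_map_add L X
  have h2 := finrank_map_add L (X ⊓ U.comap L)
  have h3 : (X ⊓ U.comap L) ⊓ LinearMap.ker L = X ⊓ LinearMap.ker L := by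
    ext x
    simp only [Submodule.mem_inf, Submodule.mem_comap, LinearMap.mem_ker]
    constructor
    · rintro ⟨⟨a, b⟩, c⟩
      exact ⟨a, c⟩
    · rintro ⟨a, c⟩
      exact ⟨⟨a, by rw [c]; exact U.zero_mem⟩, c⟩
  rw [h3] at h2
  have h4 : U ⊓ X.map L = (X ⊓ U.comap L).map L := by
    ext y
    simp only [Submodule.mem_inf, Submodule.mem_map, Submodule.mem_comap]
    constructor
    · rintro ⟨hy, x, hx, rfl⟩
      exact ⟨x, ⟨hx, hy⟩, rfl⟩
    · rintro ⟨x, ⟨hx, hy⟩, rfl⟩
      exact ⟨hy, x, hx, rfl⟩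
  have h5 := Submodule.finrank_sup_add_finrank_inf_eq U (X.map L)
  rw [h4] at h5
  omega

end rank

variable {K : Type*} [Field K] {V : Type*} [AddCommGroup V] [Module K V]
variable {r : Type*} [DecidableEq r]

/-- degree `k` part of the ideal generated by the forms `f i`, `i ∈ S` -/
noncomputable def part (d : r → ℕ) (f : r → ExteriorAlgebra K V) (S : Finset r) (k : ℕ) :
    Submodule K (ExteriorAlgebra K V) :=
  ⨆ i ∈ S, ⨆ _ : d i ≤ k, (⋀[K]^(k - d i) V).map (LinearMap.mulLeft K (f i))

section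

variable {d : r → ℕ} {f : r → ExteriorAlgebra K V} (hf : ∀ i, f i ∈ ⋀[K]^(d i) V)

include hf

lemma map_le {i : r} {k : ℕ} (h : d i ≤ k) :
    (⋀[K]^(k - d i) V).map (LinearMap.mulLeft K (f i)) ≤ ⋀[K]^k V := by
  rintro _ ⟨a, ha, rfl⟩
  have h1 := mul_mem (hf i) ha
  rw [Nat.add_sub_cancel' h] at h1
  exact h1

lemma part_le (S : Finset r) (k : ℕ) : part d f S k ≤ ⋀[K]^k V :=
  iSup₂_le fun _ _ => iSup_le fun h => map_le hf h

lemma mul_part (S : Finset r) (j : r) {k : ℕ} (hk : d j ≤ k) :
    part d f S (k - d j) ≤ (part d f S k).comap (LinearMap.mulLeft K (f j)) := by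
  refine iSup₂_le fun i hi => iSup_le fun h => ?_
  rintro _ ⟨a, ha, rfl⟩
  rw [Submodule.mem_comap]
  simp only [LinearMap.mulLeft_apply]
  have h1 : f j * (f i * a) = (-1 : K) ^ (d j * d i) • (f i * (f j * a)) := by
    rw [← mul_assoc, gcomm (hf j) (hf i), smul_mul_assoc, mul_assoc]
  rw [h1]
  refine Submodule.smul_mem _ _ ?_
  have h2 : f j * a ∈ ⋀[K]^(k - d i) V := by
    have h3 := mul_mem (hf j) ha
    have e : d j + (k - d j - d i) = k - d i := by omega
    rw [e] at h3
    exact h3
  have h4 : (⋀[K]^(k - d i) V).map (LinearMap.mulLeft K (f i)) ≤ part d f S k :=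
    le_iSup₂_of_le i hi (le_iSup_of_le (by omega) le_rfl)
  exact h4 ⟨_, h2, rfl⟩

omit hf in
lemma part_insert_of_le (S : Finset r) (i : r) {k : ℕ} (h : d i ≤ k) :
    part d f (insert i S) k = part d f S k ⊔ (⋀[K]^(k - d i) V).map (LinearMap.mulLeft K (f i)) := by
  unfold part
  rw [Finset.iSup_insert, sup_comm, iSup_pos h]

omit hf in
lemma part_insert_of_lt (S : Finset r) (i : r) {k : ℕ} (h : k < d i) :
    part d f (insert i S) k = part d f S k := by
  unfold part
  rw [Finset.iSup_insert, iSup_neg (by omega), bot_sup_eq]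

/-- the elements of degree `k - d i` which are mapped to zero by `f i` in the quotient -/
noncomputable def kern (d : r → ℕ) (f : r → ExteriorAlgebra K V) (S : Finset r) (i : r) (k : ℕ) :
    Submodule K (ExteriorAlgebra K V) :=
  ⋀[K]^(k - d i) V ⊓ (part d f S k).comap (LinearMap.mulLeft K (f i))

lemma part_le_kern (S : Finset r) (i : r) {k : ℕ} (h : d i ≤ k) :
    part d f S (k - d i) ≤ kern d f S i k :=
  le_inf (part_le hf S _) (mul_part hf S i h)

end

variable [Module.Finite K V]

instance finExt : FiniteDimensional K (ExteriorAlgebra K V) := by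
  let b := Module.finBasis K V
  exact Module.Finite.of_basis b.ExteriorAlgebra

/-- dimension of the degree `k` part of the quotient -/
noncomputable def Q (d : r → ℕ) (f : r → ExteriorAlgebra K V) (S : Finset r) (k : ℕ) : ℚ :=
  (finrank K (⋀[K]^k V) : ℚ) - finrank K (part d f S k)

lemma Q_insert_of_lt {d : r → ℕ} {f : r → ExteriorAlgebra K V} (S : Finset r) (i : r) {k : ℕ}
    (h : k < d i) : Q d f (insert i S) k = Q d f S k := by
  unfold Q
  rw [part_insert_of_lt S i h]

/-- excess -/
noncomputable def ex (d : r → ℕ) (f : r → ExteriorAlgebra K V) (S : Finset r) (i : r) (k : ℕ) : ℚ :=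
  (finrank K (kern d f S i k) : ℚ) - finrank K (part d f S (k - d i))

lemma Q_insert_of_le {d : r → ℕ} {f : r → ExteriorAlgebra K V} (S : Finset r) (i : r) {k : ℕ}
    (h : d i ≤ k) : Q d f (insert i S) k = Q d f S k - Q d f S (k - d i) + ex d f S i k := by
  unfold Q ex
  rw [part_insert_of_le S i h]
  have h1 := finrank_sup_map (LinearMap.mulLeft K (f i)) (part d f S k) (⋀[K]^(k - d i) V)
  have h2 : (finrank K ↥(part d f S k ⊔ (⋀[K]^(k - d i) V).map (LinearMap.mulLeft K (f i))) : ℚ)
      + finrank K (kern d f S i k) = finrank K (part d f S k) + finrank K (⋀[K]^(k - d i) V) := by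
    exact_mod_cast h1
  linarith

lemma ex_nonneg {d : r → ℕ} {f : r → ExteriorAlgebra K V} (hf : ∀ i, f i ∈ ⋀[K]^(d i) V)
    (S : Finset r) (i : r) {k : ℕ} (h : d i ≤ k) : 0 ≤ ex d f S i k := by
  unfold ex
  have h1 := Submodule.finrank_mono (part_le_kern hf S i h)
  have h2 : (finrank K (part d f S (k - d i)) : ℚ) ≤ finrank K (kern d f S i k) := by exact_mod_cast h1
  linarith

lemma kern_eq {d : r → ℕ} {f : r → ExteriorAlgebra K V} (hf : ∀ i, f i ∈ ⋀[K]^(d i) V)
    (S : Finset r) (i : r) {k : ℕ} (h : d i ≤ k) (h0 : ex d f S i k = 0) :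
    kern d f S i k = part d f S (k - d i) := by
  unfold ex at h0
  refine (Submodule.eq_of_le_of_finrank_eq (part_le_kern hf S i h) ?_).symm
  have h2 : (finrank K (part d f S (k - d i)) : ℚ) = finrank K (kern d f S i k) := by linarith
  exact_mod_cast h2

/-- odd degree -/
lemma Q_odd {d : r → ℕ} {f : r → ExteriorAlgebra K V} (hf : ∀ i, f i ∈ ⋀[K]^(d i) V)
    (h2 : (2 : K) ≠ 0) (S : Finset r) (i : r) (hi : Odd (d i)) {k : ℕ} (h : d i ≤ k) :
    Q d f S k ≤ Q d f (insert i S) k + Q d f (insert i S) (k - d i) := by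
  rw [Q_insert_of_le S i h]
  have h3 : part d f (insert i S) (k - d i) ≤ kern d f S i k := by
    refine le_inf (part_le hf _ _) ?_
    refine iSup₂_le fun j hj => iSup_le fun hj2 => ?_
    rcases Finset.mem_insert.1 hj with rfl | hj
    · rintro _ ⟨a, ha, rfl⟩
      rw [Submodule.mem_comap]
      simp only [LinearMap.mulLeft_apply]
      rw [← mul_assoc, sq_zero_odd h2 hi (hf j), zero_mul]
      exact Submodule.zero_mem _
    · refine le_trans ?_ (mul_part hf S i h)
      exact le_iSup₂_of_le j hj (le_iSup_of_le hj2 le_rfl)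
  have h4 := Submodule.finrank_mono h3
  have h5 : (finrank K (part d f (insert i S) (k - d i)) : ℚ) ≤ finrank K (kern d f S i k) := by
    exact_mod_cast h4
  unfold Q ex
  linarith

end Pool.Agent.H36EXT
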