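import Mathlib
import Pool.Agent.H36EXT.Part

set_option autoImplicit false

namespace Pool.Agent.H36EXT

open ExteriorAlgebra Module PowerSeries

/-- the first nonzero coefficient, if any, is positive -/
def LexNonneg (D : PowerSeries ℚ) : Prop := ∀ k, (∀ j < k, coeff j D = 0) → 0 ≤ coeff k D

lemma lex_sub {D T κ : PowerSeries ℚ} {e : ℕ} (he : 1 ≤ e)
    (hT : ∀ k, coeff k T = coeff k D - (if e ≤ k then coeff (k - e) D else 0) + coeff k κ)
    (hD : LexNonneg D) (hκ : ∀ k, 0 ≤ coeff k κ) (k : ℕ) (hk : ∀ j < k, coeff j T = 0) :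
    (∀ j < k, coeff j D = 0 ∧ coeff j κ = 0) ∧ coeff k T = coeff k D + coeff k κ := by
  have main : ∀ m, m ≤ k → (∀ j < m, coeff j D = 0 ∧ coeff j κ = 0) ∧
      coeff m T = coeff m D + coeff m κ := by
    intro m
    induction m using Nat.strong_induction_on with
    | _ m ih =>
      intro hm
      have h1 : ∀ j < m, coeff j D = 0 ∧ coeff j κ = 0 := by
        intro j hj
        obtain ⟨a, b⟩ := ih j hj (by omega)
        have h2 := hk j (by omega)
        rw [b] at h2
        have h3 := hD j (fun i hi => (a i hi).1)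
        have h4 := hκ j
        constructor <;> linarith
      refine ⟨h1, ?_⟩
      rw [hT m]
      split_ifs with h5
      · rw [(h1 (m - e) (by omega)).1]
        ring
      · ring
  exact main k le_rfl

lemma lex_even {D T κ : PowerSeries ℚ} {e : ℕ} (he : 1 ≤ e)
    (hT : ∀ k, coeff k T = coeff k D - (if e ≤ k then coeff (k - e) D else 0) + coeff k κ)
    (hD : LexNonneg D) (hκ : ∀ k, 0 ≤ coeff k κ) : LexNonneg T := by
  intro k hk
  obtain ⟨h1, h2⟩ := lex_sub he hT hD hκ k hk
  rw [h2]
  exact add_nonneg (hD k fun j hj => (h1 j hj).1) (hκ k)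

lemma lex_odd {D T : PowerSeries ℚ} {e : ℕ} (he : 1 ≤ e)
    (hT : ∀ k, coeff k D ≤ coeff k T + (if e ≤ k then coeff (k - e) T else 0))
    (hD : LexNonneg D) : LexNonneg T := by
  intro k
  induction k using Nat.strong_induction_on with
  | _ k ih =>
    intro hk
    have h0 : ∀ m ≤ k, coeff m D ≤ coeff m T := by
      intro m hm
      have h1 := hT m
      split_ifs at h1 with h5
      · rw [hk (m - e) (by omega)] at h1
        linarith
      · linarith
    have h1 : ∀ m, m ≤ k → ∀ j < m, coeff j D = 0 := by
      intro m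
      induction m with
      | zero => intro _ j hj; omega
      | succ m ihm =>
        intro hm j hj
        rcases Nat.lt_succ_iff_lt_or_eq.1 hj with h | h
        · exact ihm (by omega) j h
        · rw [h]
          have h2 := hD m (ihm (by omega))
          have h3 := h0 m (by omega)
          rw [hk m (by omega)] at h3
          linarith
    exact le_trans (hD k (h1 k le_rfl)) (h0 k le_rfl)

variable {r : Type*} [DecidableEq r]

/-- the product of the problem, over the index set `S` -/
noncomputable def PP (d : r → ℕ) (S : Finset r) : PowerSeries ℚ :=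
  ∏ i ∈ S, (if Even (d i) then 1 - X ^ d i else (1 + X ^ d i)⁻¹)

variable {K : Type*} [Field K] {V : Type*} [AddCommGroup V] [Module K V] [Module.Finite K V]

/-- Hilbert series -/
noncomputable def H (d : r → ℕ) (f : r → ExteriorAlgebra K V) (S : Finset r) : PowerSeries ℚ :=
  PowerSeries.mk fun k => Q d f S k

/-- difference to the expected series -/
noncomputable def DD (d : r → ℕ) (f : r → ExteriorAlgebra K V) (S : Finset r) : PowerSeries ℚ :=
  H d f S - (1 + X) ^ finrank K V * PP d S

lemma coeff_binom (n k : ℕ) : coeff k ((1 + X : PowerSeries ℚ) ^ n) = n.choose k := by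
  have h : ((1 + X : PowerSeries ℚ) ^ n) = ((1 + Polynomial.X : Polynomial ℚ) ^ n : Polynomial ℚ) := by
    simp
  rw [h, Polynomial.coeff_coe, Polynomial.coeff_one_add_X_pow]

lemma DD_empty (d : r → ℕ) (f : r → ExteriorAlgebra K V) : DD d f ∅ = 0 := by
  unfold DD PP
  rw [Finset.prod_empty, mul_one, sub_eq_zero]
  ext k
  rw [coeff_binom]
  unfold H Q part
  rw [coeff_mk, exteriorPower.finrank_eq]
  simp

lemma coeff_X_mul (e k : ℕ) (F : PowerSeries ℚ) :
    coeff k (X ^ e * F) = if e ≤ k then coeff (k - e) F else 0 := by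
  rw [coeff_X_pow_mul']

/-- the excess as a series -/
noncomputable def EX (d : r → ℕ) (f : r → ExteriorAlgebra K V) (S : Finset r) (i : r) : PowerSeries ℚ :=
  PowerSeries.mk fun k => if d i ≤ k then ex d f S i k else 0

lemma DD_even {d : r → ℕ} {f : r → ExteriorAlgebra K V} (S : Finset r) (i : r) (hi : i ∉ S)
    (he : Even (d i)) (k : ℕ) :
    coeff k (DD d f (insert i S)) = coeff k (DD d f S)
      - (if d i ≤ k then coeff (k - d i) (DD d f S) else 0) + coeff k (EX d f S i) := by
  have h1 : DD d f (insert i S) = DD d f S - X ^ d i * DD d f S + EX d f S i := by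
    have h2 : H d f (insert i S) = H d f S - X ^ d i * H d f S + EX d f S i := by
      ext k
      rw [map_add, map_sub, coeff_X_mul]
      unfold H EX
      simp only [coeff_mk]
      split_ifs with h
      · rw [Q_insert_of_le S i h]
      · rw [Q_insert_of_lt S i (by omega)]
        ring
    have h3 : PP d (insert i S) = (1 - X ^ d i) * PP d S := by
      unfold PP
      rw [Finset.prod_insert hi, if_pos he]
    unfold DD
    rw [h2, h3]
    ring
  rw [h1, map_add, map_sub, coeff_X_mul]

lemma DD_odd {d : r → ℕ} {f : r → ExteriorAlgebra K V} (hf : ∀ i, f i ∈ ⋀[K]^(d i) V)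
    (h2 : (2 : K) ≠ 0) (S : Finset r) (i : r) (hi : i ∉ S) (hd : 1 ≤ d i)
    (ho : ¬ Even (d i)) (k : ℕ) :
    coeff k (DD d f S) ≤ coeff k (DD d f (insert i S))
      + (if d i ≤ k then coeff (k - d i) (DD d f (insert i S)) else 0) := by
  have h3 : (1 + X ^ d i) * PP d (insert i S) = PP d S := by
    unfold PP
    rw [Finset.prod_insert hi, if_neg ho, ← mul_assoc, PowerSeries.mul_inv_cancel, one_mul]
    rw [map_add, map_pow, constantCoeff_X, zero_pow (by omega), map_one, add_zero]
    exact one_ne_zero
  have h4 : DD d f (insert i S) + X ^ d i * DD d f (insert i S)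
      = (H d f (insert i S) + X ^ d i * H d f (insert i S)) - (1 + X) ^ finrank K V * PP d S := by
    rw [← h3]
    unfold DD
    ring
  have h5 : coeff k (DD d f (insert i S)) + (if d i ≤ k then coeff (k - d i) (DD d f (insert i S)) else 0)
      = coeff k (DD d f (insert i S) + X ^ d i * DD d f (insert i S)) := by
    rw [map_add, coeff_X_mul]
  rw [h5, h4]
  have h6 : coeff k (DD d f S) = coeff k (H d f S) - coeff k ((1 + X) ^ finrank K V * PP d S) := by
    unfold DD
    rw [map_sub]
  rw [h6, map_sub, map_add, coeff_X_mul]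
  have h7 : coeff k (H d f S) ≤ coeff k (H d f (insert i S))
      + (if d i ≤ k then coeff (k - d i) (H d f (insert i S)) else 0) := by
    unfold H
    simp only [coeff_mk]
    split_ifs with h
    · exact Q_odd hf h2 S i (Nat.not_even_iff_odd.1 ho) h
    · rw [Q_insert_of_lt S i (by omega), add_zero]
  linarith

lemma EX_nonneg {d : r → ℕ} {f : r → ExteriorAlgebra K V} (hf : ∀ i, f i ∈ ⋀[K]^(d i) V)
    (S : Finset r) (i : r) (k : ℕ) : 0 ≤ coeff k (EX d f S i) := by
  unfold EX
  rw [coeff_mk]
  split_ifs with h
  · exact ex_nonneg hf S i h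
  · exact le_rfl

/-- the Hilbert series is at least the expected one, lexicographically -/
lemma lex_main {d : r → ℕ} {f : r → ExteriorAlgebra K V} (hf : ∀ i, f i ∈ ⋀[K]^(d i) V)
    (h2 : (2 : K) ≠ 0) (hd : ∀ i, 1 ≤ d i) (S : Finset r) : LexNonneg (DD d f S) := by
  induction S using Finset.induction_on with
  | empty =>
    rw [DD_empty]
    intro k _
    simp
  | insert i S hi ih =>
    by_cases he : Even (d i)
    · exact lex_even (hd i) (DD_even S i hi he) ih (EX_nonneg hf S i)
    · exact lex_odd (hd i) (DD_odd hf h2 S i hi (hd i) he) ih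

/-- no agreement up to degree `p * d i` -/
theorem main {p : ℕ} [hp : Fact p.Prime] [CharP K p] (hp2 : p ≠ 2) {d : r → ℕ}
    {f : r → ExteriorAlgebra K V} (hf : ∀ i, f i ∈ ⋀[K]^(d i) V) (hd : ∀ i, 1 ≤ d i) (S : Finset r)
    (i : r) (hi : i ∈ S) (he : Even (d i)) : ∃ k ≤ p * d i, coeff k (DD d f S) ≠ 0 := by
  have h2 : (2 : K) ≠ 0 := by
    have h := CharP.cast_eq_zero_iff K p 2
    intro h3
    have h4 : ((2 : ℕ) : K) = 0 := by exact_mod_cast h3
    have h5 := (h.1 h4)
    exact hp2 ((Nat.prime_dvd_prime_iff_eq hp.1 Nat.prime_two).1 h5)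
  by_contra hcon
  push Not at hcon
  obtain ⟨T, hT, rfl⟩ : ∃ T : Finset r, i ∉ T ∧ insert i T = S :=
    ⟨S.erase i, Finset.notMem_erase i S, Finset.insert_erase hi⟩
  have hlexT := lex_main hf h2 hd T
  have key := lex_sub (hd i) (DD_even T i hT he) hlexT (EX_nonneg hf T i) (p * d i + 1) ?_
  swap
  · intro j hj
    exact hcon j (by omega)
  obtain ⟨key, -⟩ := key
  -- powers of f i are not in the ideal
  have hpow : ∀ m, m ≤ p → f i ^ m ∈ ⋀[K]^(m * d i) V ∧ f i ^ m ∉ part d f T (m * d i) := by
    intro m
    induction m with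
    | zero =>
      intro _
      rw [zero_mul, pow_zero]
      have h1 : (1 : ExteriorAlgebra K V) ∈ ⋀[K]^0 V := by
        unfold exteriorPower
        rw [pow_zero]
        exact Submodule.one_le.1 le_rfl
      refine ⟨h1, ?_⟩
      have hp0 : part d f T 0 = ⊥ := by
        unfold part
        refine le_bot_iff.1 (iSup₂_le fun j _ => iSup_le fun h => ?_)
        have := hd j
        omega
      rw [hp0, Submodule.mem_bot]
      exact one_ne_zero
    | succ m ih =>
      intro hm
      obtain ⟨ih1, ih2⟩ := ih (by omega)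
      have e : d i + m * d i = (m + 1) * d i := by ring
      refine ⟨?_, ?_⟩
      · rw [pow_succ', ← e]
        exact mul_mem (hf i) ih1
      · intro hmem
        apply ih2
        have hle : d i ≤ (m + 1) * d i := by
          rw [← e]
          exact Nat.le_add_right _ _
        have e2 : (m + 1) * d i - d i = m * d i := by
          rw [← e]
          omega
        have hk : (m + 1) * d i < p * d i + 1 := by
          have := Nat.mul_le_mul_right (d i) hm
          omega
        have h3 := (key _ hk).2
        unfold EX at h3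
        rw [coeff_mk, if_pos hle] at h3
        have h4 := kern_eq hf T i hle h3
        rw [e2] at h4
        rw [← h4]
        refine Submodule.mem_inf.2 ⟨?_, ?_⟩
        · rw [e2]
          exact ih1
        · rw [Submodule.mem_comap, LinearMap.mulLeft_apply, ← pow_succ']
          exact hmem
  have hfin := (hpow p le_rfl).2
  rw [pow_char he (hd i) (hf i)] at hfin
  exact hfin (Submodule.zero_mem _)

end Pool.Agent.H36EXT
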