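import Mathlib
import Pool.Agent.H36EXT.Series

set_option autoImplicit false

namespace Pool.Agent.H36EXT

open ExteriorAlgebra Module PowerSeries

variable {K : Type*} [Field K] {V : Type*} [AddCommGroup V] [Module K V]
variable {r : Type*} [DecidableEq r]

/-- the two-sided ideal generated by the `f i`, as a subspace -/
noncomputable def idl (f : r → ExteriorAlgebra K V) : Submodule K (ExteriorAlgebra K V) :=
  Submodule.span K {x | ∃ i a b, x = a * f i * b}

lemma normal {d : ℕ} {f : ExteriorAlgebra K V} (hf : f ∈ ⋀[K]^d V) (a : ExteriorAlgebra K V) :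
    ∃ a', a * f = f * a' := by
  induction a using ExteriorAlgebra.induction with
  | algebraMap c => exact ⟨algebraMap K _ c, Algebra.commutes c f⟩
  | ι v => exact ⟨(-1 : K) ^ d • ι K v, by rw [iota_comm v hf, mul_smul_comm]⟩
  | mul a b ha hb =>
    obtain ⟨a', ha⟩ := ha
    obtain ⟨b', hb⟩ := hb
    exact ⟨a' * b', by rw [mul_assoc, hb, ← mul_assoc, ha, mul_assoc]⟩
  | add a b ha hb =>
    obtain ⟨a', ha⟩ := ha
    obtain ⟨b', hb⟩ := hb
    exact ⟨a' + b', by rw [add_mul, ha, hb, mul_add]⟩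

lemma idl_component [Fintype r] {d : r → ℕ} {f : r → ExteriorAlgebra K V}
    (hf : ∀ i, f i ∈ ⋀[K]^(d i) V) {x : ExteriorAlgebra K V} (hx : x ∈ idl f) (k : ℕ) :
    ((DirectSum.decompose (fun i : ℕ => ⋀[K]^i V) x k : ⋀[K]^k V) : ExteriorAlgebra K V)
      ∈ part d f Finset.univ k := by
  refine Submodule.span_induction (p := fun x _ =>
    ((DirectSum.decompose (fun i : ℕ => ⋀[K]^i V) x k : ⋀[K]^k V) : ExteriorAlgebra K V)
      ∈ part d f Finset.univ k) ?_ ?_ ?_ ?_ hx
  · rintro _ ⟨i, a, b, rfl⟩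
    obtain ⟨a', ha⟩ := normal (hf i) a
    rw [ha, mul_assoc]
    by_cases h : d i ≤ k
    · rw [DirectSum.coe_decompose_mul_of_left_mem_of_le (fun i : ℕ => ⋀[K]^i V) (hf i) h]
      have h4 : (⋀[K]^(k - d i) V).map (LinearMap.mulLeft K (f i)) ≤ part d f Finset.univ k :=
        le_iSup₂_of_le i (Finset.mem_univ i) (le_iSup_of_le h le_rfl)
      exact h4 ⟨_, Subtype.prop _, rfl⟩
    · rw [DirectSum.coe_decompose_mul_of_left_mem_of_not_le (fun i : ℕ => ⋀[K]^i V) (hf i) h]
      exact Submodule.zero_mem _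
  · rw [DirectSum.decompose_zero]
    exact Submodule.zero_mem _
  · intro x y _ _ h1 h2
    rw [DirectSum.decompose_add]
    exact Submodule.add_mem _ h1 h2
  · intro c x _ h
    rw [DirectSum.decompose_smul]
    exact Submodule.smul_mem _ c h

lemma idl_inf [Fintype r] {d : r → ℕ} {f : r → ExteriorAlgebra K V}
    (hf : ∀ i, f i ∈ ⋀[K]^(d i) V) (k : ℕ) :
    ⋀[K]^k V ⊓ idl f = part d f Finset.univ k := by
  apply le_antisymm
  · rintro x ⟨hx1, hx2⟩
    have h := idl_component hf hx2 k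
    rwa [DirectSum.decompose_of_mem_same (fun i : ℕ => ⋀[K]^i V) hx1] at h
  · refine le_inf (part_le hf _ _) ?_
    refine iSup₂_le fun i _ => iSup_le fun h => ?_
    rintro _ ⟨a, _, rfl⟩
    exact Submodule.subset_span ⟨i, 1, a, by rw [one_mul, LinearMap.mulLeft_apply]⟩

variable [Module.Finite K V]

lemma quotDim_eq [Fintype r] {d : r → ℕ} {f : r → ExteriorAlgebra K V}
    (hf : ∀ i, f i ∈ ⋀[K]^(d i) V) (k : ℕ) :
    (finrank K (⋀[K]^k V ⧸ (idl f).comap (⋀[K]^k V).subtype) : ℚ) = Q d f Finset.univ k := by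
  unfold Q
  rw [← idl_inf hf k]
  have h1 := Submodule.finrank_quotient_add_finrank ((idl f).comap (⋀[K]^k V).subtype)
  have h2 : finrank K ↥((idl f).comap (⋀[K]^k V).subtype) = finrank K ↥(⋀[K]^k V ⊓ idl f) := by
    have h3 : ((idl f).comap (⋀[K]^k V).subtype).map (⋀[K]^k V).subtype = ⋀[K]^k V ⊓ idl f := by
      rw [Submodule.map_comap_subtype]
    rw [← h3]
    exact (Submodule.equivMapOfInjective _ (Submodule.injective_subtype _) _).finrank_eq
  rw [h2] at h1
  rw [← h1]
  push_cast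
  ring

lemma coeff_mul_zero {A B : PowerSeries ℚ} {k : ℕ} (h : ∀ j ≤ k, coeff j B = 0) :
    coeff k (A * B) = 0 := by
  rw [coeff_mul]
  refine Finset.sum_eq_zero fun x hx => ?_
  have hx2 : x.1 + x.2 = k := Finset.HasAntidiagonal.mem_antidiagonal.1 hx
  rw [h x.2 (by omega), mul_zero]

lemma inv_binom (n : ℕ) : ((1 + X : PowerSeries ℚ) ^ n) * ((1 + X : PowerSeries ℚ) ^ n)⁻¹ = 1 := by
  refine PowerSeries.mul_inv_cancel _ ?_
  rw [map_pow, map_add, constantCoeff_X, map_one, add_zero, one_pow]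
  exact one_ne_zero

/-- agreement of the quotients and of the series up to a degree -/
lemma agree_iff {n K₀ : ℕ} {A P : PowerSeries ℚ} :
    (∀ k ≤ K₀, coeff k (A * ((1 + X : PowerSeries ℚ) ^ n)⁻¹) = coeff k P) ↔
      ∀ k ≤ K₀, coeff k (A - (1 + X) ^ n * P) = 0 := by
  have e1 : A - (1 + X) ^ n * P = (1 + X) ^ n * (A * ((1 + X : PowerSeries ℚ) ^ n)⁻¹ - P) := by
    have := inv_binom n
    linear_combination (-A) * this
  have e2 : A * ((1 + X : PowerSeries ℚ) ^ n)⁻¹ - P
      = ((1 + X : PowerSeries ℚ) ^ n)⁻¹ * (A - (1 + X) ^ n * P) := by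
    have := inv_binom n
    linear_combination P * this
  constructor
  · intro h k hk
    rw [e1]
    refine coeff_mul_zero fun j hj => ?_
    rw [map_sub, h j (by omega), sub_self]
  · intro h k hk
    have h3 : coeff k (A * ((1 + X : PowerSeries ℚ) ^ n)⁻¹ - P) = 0 := by
      rw [e2]
      exact coeff_mul_zero fun j hj => h j (by omega)
    rw [map_sub] at h3
    linarith

end Pool.Agent.H36EXT
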