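import Mathlib
import Pool.Agent.H36EXT.Ideal
import Pool.Agent.Results.MP_a0e599_al.Main

set_option autoImplicit false

namespace Pool.Agent.H36EXT

open ExteriorAlgebra Module
open Pool.Agent.Results.MP_a0e599_al.Main

universe u v

variable {K : Type u} [Field K] {n : ℕ} {V : Type v} [AddCommGroup V] [Module K V]
  {e : Module.Basis (Fin n) K V}

lemma dels_eq_zero {U : Finset (Fin n)} {x : ExteriorAlgebra K V} (h : IsEig e U x)
    (L : List (Fin n)) (hL : L.Nodup) (hn : ¬ ∀ a ∈ L, a ∈ U) : dels e L x = 0 := by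
  induction L generalizing x U with
  | nil => exact absurd (by simp) hn
  | cons b l ih =>
    rw [List.nodup_cons] at hL
    rw [dels_cons]
    by_cases hb : b ∈ U
    · refine ih (isEig_del h b) hL.2 ?_
      intro hh
      apply hn
      intro a ha
      rcases List.mem_cons.1 ha with rfl | ha
      · exact hb
      · exact (Finset.mem_erase.1 (hh a ha)).2
    · rw [isEig_del_eq_zero h hb, map_zero]

lemma isEig_dels {U : Finset (Fin n)} {x : ExteriorAlgebra K V} (h : IsEig e U x)
    (L : List (Fin n)) : IsEig e (U \ L.toFinset) (dels e L x) := by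
  induction L generalizing x U with
  | nil => simpa using h
  | cons b l ih =>
    rw [dels_cons]
    have h1 := ih (isEig_del h b)
    have e1 : U.erase b \ l.toFinset = U \ (b :: l).toFinset := by
      ext a
      simp only [Finset.mem_sdiff, Finset.mem_erase, List.mem_toFinset, List.mem_cons, not_or]
      tauto
    rwa [e1] at h1

/-- a family of disjoint blocks -/
structure Blocks (n : ℕ) (r : Type*) (M : ℕ) (d : r → ℕ) where
  T : r → Fin M → List (Fin n)
  len : ∀ i j, (T i j).length = d i
  nodup : ∀ i j, (T i j).Nodup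
  disj : ∀ i j i' j', (i, j) ≠ (i', j') → ∀ a ∈ T i j, a ∉ T i' j'

variable {r : Type*} [DecidableEq r] {M : ℕ} {d : r → ℕ}

/-- the special forms -/
noncomputable def ff (e : Module.Basis (Fin n) K V) (B : Blocks n r M d) (i : r) :
    ExteriorAlgebra K V := ∑ j, lmono e (B.T i j)

lemma ff_mem (B : Blocks n r M d) (i : r) : ff e B i ∈ ⋀[K]^(d i) V := by
  unfold ff
  refine Submodule.sum_mem _ fun j _ => ?_
  have := lmono_mem (e := e) (B.T i j)
  rwa [B.len] at this

/-- the dual operators -/
noncomputable def DO (e : Module.Basis (Fin n) K V) (B : Blocks n r M d) (w : Fin M → K) (i : r) :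
    ExteriorAlgebra K V →ₗ[K] ExteriorAlgebra K V := ∑ j, w j • dels e (B.T i j)

lemma DO_apply (B : Blocks n r M d) (w : Fin M → K) (i : r) (x : ExteriorAlgebra K V) :
    DO e B w i x = ∑ j, w j • dels e (B.T i j) x := by
  unfold DO
  rw [LinearMap.sum_apply]
  rfl

/-- the commutator with a sign -/
noncomputable def hh (e : Module.Basis (Fin n) K V) (B : Blocks n r M d) (w : Fin M → K) (i : r) :
    ExteriorAlgebra K V →ₗ[K] ExteriorAlgebra K V :=
  DO e B w i ∘ₗ LinearMap.mulLeft K (ff e B i)
    - (-1 : K) ^ (d i * d i) • (LinearMap.mulLeft K (ff e B i) ∘ₗ DO e B w i)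

lemma hh_apply (B : Blocks n r M d) (w : Fin M → K) (i : r) (x : ExteriorAlgebra K V) :
    hh e B w i x = DO e B w i (ff e B i * x) - (-1 : K) ^ (d i * d i) • (ff e B i * DO e B w i x) := rfl

/-- the eigenvalues -/
noncomputable def cc (B : Blocks n r M d) (w : Fin M → K) (i : r) (U : Finset (Fin n)) : K :=
  ∑ j, w j * ((if ∀ a ∈ B.T i j, a ∉ U then 1 else 0)
    - (-1 : K) ^ (d i * d i) * (if ∀ a ∈ B.T i j, a ∈ U then 1 else 0))

lemma hh_eig (B : Blocks n r M d) (w : Fin M → K) (i : r) {U : Finset (Fin n)}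
    {x : ExteriorAlgebra K V} (h : IsEig e U x) : hh e B w i x = cc B w i U • x := by
  rw [hh_apply, DO_apply, DO_apply]
  unfold ff cc
  rw [Finset.mul_sum, Finset.smul_sum, ← Finset.sum_sub_distrib, Finset.sum_smul]
  refine Finset.sum_congr rfl fun j _ => ?_
  have h1 : dels e (B.T i j) ((∑ j', lmono e (B.T i j')) * x)
      = (-1 : K) ^ (d i * d i) • ((∑ j', lmono e (B.T i j')) * dels e (B.T i j) x)
        + (dels e (B.T i j) (lmono e (B.T i j) * x)
          - (-1 : K) ^ (d i * d i) • (lmono e (B.T i j) * dels e (B.T i j) x)) := by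
    rw [Finset.sum_mul, Finset.sum_mul, map_sum, Finset.smul_sum,
      ← Finset.add_sum_erase _ _ (Finset.mem_univ j), ← Finset.add_sum_erase _ _ (Finset.mem_univ j)]
    have h2 : ∑ j' ∈ Finset.univ.erase j, dels e (B.T i j) (lmono e (B.T i j') * x)
        = ∑ j' ∈ Finset.univ.erase j, (-1 : K) ^ (d i * d i) • (lmono e (B.T i j') * dels e (B.T i j) x) := by
      refine Finset.sum_congr rfl fun j' hj' => ?_
      have hne : (i, j) ≠ (i, j') := by
        intro hc
        exact (Finset.mem_erase.1 hj').1 (Prod.mk.inj hc).2.symm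
      rw [dels_lmono_mul _ _ (B.disj i j i j' hne), B.len, B.len]
    rw [h2]
    abel
  rw [h1, lmono_mul_dels h _ (B.nodup i j), dels_lmono_mul_self h _ (B.nodup i j)]
  rw [smul_add, mul_smul_comm, smul_smul, smul_smul, smul_sub, smul_smul, mul_sub, sub_smul]
  rw [mul_comm (w j) ((-1 : K) ^ (d i * d i))]
  have e1 : (w j * if ∀ a ∈ B.T i j, a ∉ U then (1 : K) else 0) • x
      = w j • (if ∀ a ∈ B.T i j, a ∉ U then x else 0) := by
    split_ifs <;> simp
  have e2 : (w j * ((-1 : K) ^ (d i * d i) * if ∀ a ∈ B.T i j, a ∈ U then (1 : K) else 0)) • x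
      = ((-1 : K) ^ (d i * d i) * w j) • (if ∀ a ∈ B.T i j, a ∈ U then x else 0) := by
    split_ifs <;> simp [mul_comm]
  rw [e1, e2]
  abel

lemma isEig_BB (U : Finset (Fin n)) : IsEig e U (BB e U) := by
  rw [BB_apply]
  exact isEig_mono U

lemma BB_mem (U : Finset (Fin n)) : BB e U ∈ ⋀[K]^(U.card) V := by
  rw [BB_apply]
  exact mono_mem U

/-- even degrees: commutation of `h` and `D` -/
lemma hh_DO (B : Blocks n r M d) (i : r) (hd : 1 ≤ d i) (he : Even (d i)) (x : ExteriorAlgebra K V) :
    hh e B 1 i (DO e B 1 i x) = DO e B 1 i (hh e B 1 i x) + (2 : K) • DO e B 1 i x := by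
  have hs : (-1 : K) ^ (d i * d i) = 1 := (he.mul_right _).neg_one_pow
  have key : hh e B 1 i ∘ₗ DO e B 1 i = DO e B 1 i ∘ₗ hh e B 1 i + (2 : K) • DO e B 1 i := by
    refine (BB e).ext fun U => ?_
    have hU := isEig_BB (e := e) U
    rw [LinearMap.comp_apply, LinearMap.add_apply, LinearMap.comp_apply, LinearMap.smul_apply,
      hh_eig B 1 i hU, map_smul, ← add_smul]
    rw [DO_apply, map_sum, Finset.smul_sum]
    refine Finset.sum_congr rfl fun j _ => ?_
    rw [Pi.one_apply, one_smul]
    by_cases hj : ∀ a ∈ B.T i j, a ∈ U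
    · rw [hh_eig B 1 i (isEig_dels hU (B.T i j))]
      congr 1
      unfold cc
      rw [hs]
      rw [← Finset.add_sum_erase _ _ (Finset.mem_univ j)]
      conv_rhs => rw [← Finset.add_sum_erase _ _ (Finset.mem_univ j)]
      have hne : B.T i j ≠ [] := by
        intro hc
        have := B.len i j
        rw [hc] at this
        simp at this
        omega
      obtain ⟨a₀, ha₀⟩ := List.exists_mem_of_ne_nil _ hne
      have c1 : ∀ a ∈ B.T i j, a ∉ U \ (B.T i j).toFinset := by
        intro a ha hc
        exact (Finset.mem_sdiff.1 hc).2 (List.mem_toFinset.2 ha)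
      have c2 : ¬ ∀ a ∈ B.T i j, a ∈ U \ (B.T i j).toFinset := fun hc => c1 a₀ ha₀ (hc a₀ ha₀)
      have c3 : ¬ ∀ a ∈ B.T i j, a ∉ U := fun hc => hc a₀ ha₀ (hj a₀ ha₀)
      rw [if_pos c1, if_neg c2, if_neg c3, if_pos hj]
      have c4 : ∑ x ∈ Finset.univ.erase j, (1 : Fin M → K) x *
            ((if ∀ a ∈ B.T i x, a ∉ U \ (B.T i j).toFinset then (1 : K) else 0)
              - 1 * if ∀ a ∈ B.T i x, a ∈ U \ (B.T i j).toFinset then 1 else 0)
          = ∑ x ∈ Finset.univ.erase j, (1 : Fin M → K) x *
            ((if ∀ a ∈ B.T i x, a ∉ U then (1 : K) else 0)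
              - 1 * if ∀ a ∈ B.T i x, a ∈ U then 1 else 0) := by
        refine Finset.sum_congr rfl fun j' hj' => ?_
        have hne' : (i, j') ≠ (i, j) := by
          intro hc
          exact (Finset.mem_erase.1 hj').1 (Prod.mk.inj hc).2
        have hdis := B.disj i j' i j hne'
        have q1 : (∀ a ∈ B.T i j', a ∉ U \ (B.T i j).toFinset) ↔ ∀ a ∈ B.T i j', a ∉ U := by
          refine forall₂_congr fun a ha => ?_
          rw [Finset.mem_sdiff, List.mem_toFinset]
          have := hdis a ha
          tauto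
        have q2 : (∀ a ∈ B.T i j', a ∈ U \ (B.T i j).toFinset) ↔ ∀ a ∈ B.T i j', a ∈ U := by
          refine forall₂_congr fun a ha => ?_
          rw [Finset.mem_sdiff, List.mem_toFinset]
          have := hdis a ha
          tauto
        simp only [q1, q2]
      rw [c4]
      simp only [Pi.one_apply]
      ring
    · rw [dels_eq_zero hU _ (B.nodup i j) hj, map_zero, smul_zero]
  have := congrArg (fun L => L x) key
  exact this

end Pool.Agent.H36EXT
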