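import Mathlib
import Pool.Agent.H36EXT.Ops

set_option autoImplicit false

namespace Pool.Agent.H36EXT

variable {K : Type*} [Field K] {n : ℕ} {r : Type*} [DecidableEq r] {M : ℕ} {d : r → ℕ}

/-- at most `|U|` blocks of the `i`-th family meet `U` -/
lemma card_meet (B : Blocks n r M d) (i : r) (U : Finset (Fin n)) :
    (Finset.univ.filter fun j : Fin M => ¬ ∀ a ∈ B.T i j, a ∉ U).card ≤ U.card := by
  refine Finset.card_le_card_of_forall_subsingleton (fun j a => a ∈ B.T i j) ?_ ?_
  · intro j hj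
    rw [Finset.mem_filter] at hj
    have h := hj.2
    push Not at h
    obtain ⟨a, ha1, ha2⟩ := h
    exact ⟨a, ha2, ha1⟩
  · intro a _ j hj j' hj'
    by_contra hne
    have hne2 : (i, j) ≠ (i, j') := fun hc => hne (Prod.mk.inj hc).2
    exact B.disj i j i j' hne2 a hj.2 hj'.2

lemma card_free (B : Blocks n r M d) (i : r) (U : Finset (Fin n)) :
    M ≤ (Finset.univ.filter fun j : Fin M => ∀ a ∈ B.T i j, a ∉ U).card + U.card := by
  have h1 := card_meet B i U
  have h2 := Finset.card_filter_add_card_filter_not (s := (Finset.univ : Finset (Fin M)))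
    (p := fun j => ∀ a ∈ B.T i j, a ∉ U)
  rw [Finset.card_univ, Fintype.card_fin] at h2
  omega

lemma card_full (B : Blocks n r M d) (i : r) (hd : 1 ≤ d i) (U : Finset (Fin n)) :
    (Finset.univ.filter fun j : Fin M => ∀ a ∈ B.T i j, a ∈ U).card ≤ U.card := by
  refine le_trans (Finset.card_le_card ?_) (card_meet B i U)
  intro j hj
  rw [Finset.mem_filter] at hj ⊢
  refine ⟨hj.1, ?_⟩
  intro hc
  have hne : B.T i j ≠ [] := by
    intro hc
    have := B.len i j
    rw [hc] at this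
    simp at this
    omega
  obtain ⟨a, ha⟩ := List.exists_mem_of_ne_nil _ hne
  exact hc a ha (hj.2 a ha)

lemma cc_even (B : Blocks n r M d) [CharZero K] {i : r} (hd : 1 ≤ d i) (he : Even (d i)) {K₀ : ℕ}
    (hM : 3 * K₀ < M) {m : ℕ} (hm : m ≤ K₀) (U : Finset (Fin n)) (hU : U.card ≤ K₀) :
    cc B (1 : Fin M → K) i U ≠ (m : K) := by
  have hs : (-1 : K) ^ (d i * d i) = 1 := (he.mul_right _).neg_one_pow
  have h1 : cc B (1 : Fin M → K) i U
      = ((Finset.univ.filter fun j : Fin M => ∀ a ∈ B.T i j, a ∉ U).card : K)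
        - ((Finset.univ.filter fun j : Fin M => ∀ a ∈ B.T i j, a ∈ U).card : K) := by
    unfold cc
    simp only [Pi.one_apply, one_mul, hs, Finset.sum_sub_distrib, Finset.sum_boole]
  rw [h1]
  intro hc
  have h2 : ((Finset.univ.filter fun j : Fin M => ∀ a ∈ B.T i j, a ∉ U).card : K)
      = (((Finset.univ.filter fun j : Fin M => ∀ a ∈ B.T i j, a ∈ U).card + m : ℕ) : K) := by
    push_cast
    linear_combination hc
  have h3 := Nat.cast_injective h2
  have h4 := card_free B i U
  have h5 := card_full B i hd U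
  omega

lemma cc_odd (B : Blocks n r M d) {w : Fin M → K} {i : r} (hd : 1 ≤ d i) (ho : Odd (d i)) {K₀ : ℕ}
    (hM : K₀ < M) (hw : ∀ J : Finset (Fin M), J.Nonempty → ∑ j ∈ J, w j ≠ 0) (U : Finset (Fin n))
    (hU : U.card ≤ K₀) : cc B w i U ≠ 0 := by
  have hs : (-1 : K) ^ (d i * d i) = -1 := (ho.mul ho).neg_one_pow
  have h1 : cc B w i U = ∑ j ∈ Finset.univ.filter (fun j : Fin M =>
      (∀ a ∈ B.T i j, a ∉ U) ∨ ∀ a ∈ B.T i j, a ∈ U), w j := by
    unfold cc
    rw [Finset.sum_filter]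
    refine Finset.sum_congr rfl fun j _ => ?_
    have hne : B.T i j ≠ [] := by
      intro hc
      have := B.len i j
      rw [hc] at this
      simp at this
      omega
    obtain ⟨a₀, ha₀⟩ := List.exists_mem_of_ne_nil _ hne
    rw [hs]
    by_cases c1 : ∀ a ∈ B.T i j, a ∉ U
    · have c2 : ¬ ∀ a ∈ B.T i j, a ∈ U := fun hc => c1 a₀ ha₀ (hc a₀ ha₀)
      rw [if_pos c1, if_neg c2, if_pos (Or.inl c1)]
      ring
    · by_cases c2 : ∀ a ∈ B.T i j, a ∈ U
      · rw [if_neg c1, if_pos c2, if_pos (Or.inr c2)]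
        ring
      · rw [if_neg c1, if_neg c2, if_neg (by tauto)]
        ring
  rw [h1]
  apply hw
  have h4 := card_free B i U
  have h5 : 0 < (Finset.univ.filter fun j : Fin M => ∀ a ∈ B.T i j, a ∉ U).card := by omega
  obtain ⟨j, hj⟩ := Finset.card_pos.1 h5
  rw [Finset.mem_filter] at hj
  exact ⟨j, Finset.mem_filter.2 ⟨Finset.mem_univ j, Or.inl hj.2⟩⟩

/-- over an infinite field there are weights with nonzero subset sums -/
lemma exists_weights (K : Type*) [Field K] [Infinite K] (M : ℕ) :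
    ∃ w : Fin M → K, ∀ J : Finset (Fin M), J.Nonempty → ∑ j ∈ J, w j ≠ 0 := by
  let F : Finset (Fin M) → Polynomial K := fun J => ∑ j ∈ J, Polynomial.X ^ (j : ℕ)
  have hF : ∀ J : Finset (Fin M), J.Nonempty → F J ≠ 0 := by
    rintro J ⟨j₀, hj₀⟩ hc
    have h1 : (F J).coeff (j₀ : ℕ) = 1 := by
      simp only [F, Polynomial.finset_sum_coeff, Polynomial.coeff_X_pow]
      rw [Finset.sum_eq_single_of_mem j₀ hj₀]
      · rw [if_pos rfl]
      · intro b _ hb
        rw [if_neg]
        intro hc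
        exact hb (Fin.ext hc.symm)
    rw [hc, Polynomial.coeff_zero] at h1
    exact zero_ne_one h1
  let G : Polynomial K := ∏ J ∈ (Finset.univ : Finset (Finset (Fin M))).filter (fun J => J.Nonempty), F J
  have hG : G ≠ 0 := Finset.prod_ne_zero_iff.2 fun J hJ => hF J (Finset.mem_filter.1 hJ).2
  obtain ⟨t, ht⟩ : ∃ t, G.eval t ≠ 0 := by
    by_contra hc
    push Not at hc
    exact hG (Polynomial.funext (by simpa using hc))
  refine ⟨fun j => t ^ (j : ℕ), fun J hJ => ?_⟩
  have h2 : (F J).eval t ≠ 0 := by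
    intro hc
    apply ht
    rw [Polynomial.eval_prod]
    exact Finset.prod_eq_zero (Finset.mem_filter.2 ⟨Finset.mem_univ J, hJ⟩) hc
  simpa [F, Polynomial.eval_finset_sum] using h2

/-- blocks exist for large `n` -/
lemma exists_blocks {r : Type*} [Fintype r] [DecidableEq r] (d : r → ℕ) (M n : ℕ)
    (hn : M * ∑ i, d i ≤ n) : Nonempty (Blocks n r M d) := by
  have hcard : Fintype.card (Σ i : r, Fin M × Fin (d i)) ≤ Fintype.card (Fin n) := by
    rw [Fintype.card_sigma, Fintype.card_fin]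
    simp only [Fintype.card_prod, Fintype.card_fin]
    rw [← Finset.mul_sum]
    exact hn
  obtain ⟨φ⟩ := Function.Embedding.nonempty_of_card_le hcard
  refine ⟨⟨fun i j => List.ofFn fun a : Fin (d i) => φ ⟨i, (j, a)⟩, ?_, ?_, ?_⟩⟩
  · intro i j
    exact List.length_ofFn
  · intro i j
    rw [List.nodup_ofFn]
    intro a b hab
    have h1 := φ.injective hab
    simpa using h1
  · intro i j i' j' hne a ha ha'
    rw [List.mem_ofFn] at ha ha'
    obtain ⟨x, rfl⟩ := ha
    obtain ⟨y, hy⟩ := ha'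
    have h1 := φ.injective hy
    rw [Sigma.mk.injEq] at h1
    obtain ⟨h2, h3⟩ := h1
    subst h2
    have h4 := eq_of_heq h3
    apply hne
    rw [(Prod.mk.inj h4).1]

end Pool.Agent.H36EXT
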