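import Mathlib
import Pool.Agent.H36EXT.Ideal

set_option autoImplicit false

namespace Pool.Agent.H36EXT

open ExteriorAlgebra Module PowerSeries

section line

variable {K : Type*} [Field K] {Y : Type*} [AddCommGroup Y] [Module K Y]

/-- linear independence is kept on a line, with finitely many exceptions -/
lemma li_line {ρ : ℕ} (a b : Fin ρ → Y) (t₀ : K)
    (h : LinearIndependent K (fun c => a c + t₀ • b c)) :
    {t : K | ¬ LinearIndependent K (fun c => a c + t • b c)}.Finite := by
  -- a left inverse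
  obtain ⟨Φ, hΦ⟩ : ∃ Φ : Y →ₗ[K] (Fin ρ → K), ∀ c, Φ (a c + t₀ • b c) = Pi.single c 1 := by
    have h1 := linearIndependent_iff_injective_fintypeLinearCombination.1 h
    obtain ⟨g, hg⟩ := LinearMap.exists_leftInverse_of_injective
      (Fintype.linearCombination K (fun c => a c + t₀ • b c)) (LinearMap.ker_eq_bot.2 h1)
    refine ⟨g, fun c => ?_⟩
    have h2 := congrArg (fun L => L (Pi.single c 1)) hg
    simpa using h2
  let P : Matrix (Fin ρ) (Fin ρ) (Polynomial K) := Matrix.of
    fun c j => Polynomial.C (Φ (a c) j) + Polynomial.X * Polynomial.C (Φ (b c) j)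
  have heval : ∀ t : K, (P.det).eval t = Matrix.det (Matrix.of fun c j => Φ (a c + t • b c) j) := by
    intro t
    have h1 := RingHom.map_det (Polynomial.evalRingHom t) P
    rw [Polynomial.coe_evalRingHom] at h1
    rw [h1]
    congr 1
    ext c j
    have h6 : P c j = Polynomial.C (Φ (a c) j) + Polynomial.X * Polynomial.C (Φ (b c) j) := rfl
    have h7 : (Matrix.of fun c j => Φ (a c + t • b c) j) c j = Φ (a c + t • b c) j := rfl
    rw [RingHom.mapMatrix_apply, Matrix.map_apply, h6, h7,
      Polynomial.coe_evalRingHom, Polynomial.eval_add, Polynomial.eval_mul, Polynomial.eval_C,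
      Polynomial.eval_C, Polynomial.eval_X, map_add, map_smul]
    rfl
  have h0 : (P.det).eval t₀ = 1 := by
    rw [heval]
    have h5 : (Matrix.of (fun c j => Φ (a c + t₀ • b c) j) : Matrix (Fin ρ) (Fin ρ) K) = 1 := by
      ext c j
      rw [Matrix.of_apply, hΦ c, Matrix.one_apply, Pi.single_apply]
      simp only [eq_comm]
    rw [h5, Matrix.det_one]
  have hP : P.det ≠ 0 := by
    intro hc
    rw [hc, Polynomial.eval_zero] at h0
    exact zero_ne_one h0
  refine Set.Finite.subset (Polynomial.finite_setOf_isRoot hP) ?_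
  intro t ht
  rw [Set.mem_setOf_eq] at ht ⊢
  by_contra hr
  apply ht
  have h1 : Matrix.det (Matrix.of fun c j => Φ (a c + t • b c) j) ≠ 0 := by
    rw [← heval]
    exact hr
  have h2 : LinearIndependent K (fun c => Φ (a c + t • b c)) :=
    Matrix.linearIndependent_rows_of_det_ne_zero (A := Matrix.of fun c j => Φ (a c + t • b c) j) h1
  exact LinearIndependent.of_comp Φ h2

end line

variable {K : Type*} [Field K] {V : Type*} [AddCommGroup V] [Module K V] [Module.Finite K V]
variable {r : Type*} [DecidableEq r] [Fintype r]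

/-- the line through two tuples -/
def lin (f g : r → ExteriorAlgebra K V) (t : K) : r → ExteriorAlgebra K V :=
  fun i => f i + t • (g i - f i)

omit [Module.Finite K V] [DecidableEq r] [Fintype r] in
lemma lin_zero (f g : r → ExteriorAlgebra K V) : lin f g 0 = f := by
  funext i
  simp [lin]

omit [Module.Finite K V] [DecidableEq r] [Fintype r] in
lemma lin_one (f g : r → ExteriorAlgebra K V) : lin f g 1 = g := by
  funext i
  simp [lin]

omit [Module.Finite K V] [DecidableEq r] [Fintype r] in
lemma lin_mem {d : r → ℕ} {f g : r → ExteriorAlgebra K V} (hf : ∀ i, f i ∈ ⋀[K]^(d i) V)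
    (hg : ∀ i, g i ∈ ⋀[K]^(d i) V) (t : K) (i : r) : lin f g t i ∈ ⋀[K]^(d i) V :=
  Submodule.add_mem _ (hf i) (Submodule.smul_mem _ _ (Submodule.sub_mem _ (hg i) (hf i)))

omit [Module.Finite K V] in
lemma part_span (d : r → ℕ) (f : r → ExteriorAlgebra K V) (k : ℕ) :
    part d f Finset.univ k = Submodule.span K {x | ∃ i, d i ≤ k ∧ ∃ a ∈ ⋀[K]^(k - d i) V, x = f i * a} := by
  apply le_antisymm
  · refine iSup₂_le fun i _ => iSup_le fun h => ?_
    rintro _ ⟨a, ha, rfl⟩
    exact Submodule.subset_span ⟨i, h, a, ha, rfl⟩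
  · rw [Submodule.span_le]
    rintro _ ⟨i, h, a, ha, rfl⟩
    have h4 : (⋀[K]^(k - d i) V).map (LinearMap.mulLeft K (f i)) ≤ part d f Finset.univ k :=
      le_iSup₂_of_le i (Finset.mem_univ i) (le_iSup_of_le h le_rfl)
    exact h4 ⟨a, ha, rfl⟩

lemma semi (d : r → ℕ) (f g : r → ExteriorAlgebra K V) (k : ℕ) (t₀ : K) :
    {t : K | finrank K (part d (lin f g t) Finset.univ k)
      < finrank K (part d (lin f g t₀) Finset.univ k)}.Finite := by
  have h1 := Submodule.exists_fun_fin_finrank_span_eq K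
    {x | ∃ i, d i ≤ k ∧ ∃ a ∈ ⋀[K]^(k - d i) V, x = lin f g t₀ i * a}
  obtain ⟨v, hv1, hv2, hv3⟩ := h1
  choose ι hι a ha hva using hv1
  have h2 : (fun c => f (ι c) * a c + t₀ • ((g (ι c) - f (ι c)) * a c)) = v := by
    funext c
    rw [hva c]
    unfold lin
    rw [add_mul, smul_mul_assoc]
  refine Set.Finite.subset (li_line (fun c => f (ι c) * a c) (fun c => (g (ι c) - f (ι c)) * a c) t₀
    (by rw [h2]; exact hv3)) ?_
  intro t ht hli
  rw [Set.mem_setOf_eq] at ht
  apply absurd ht
  rw [not_lt]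
  rw [part_span d (lin f g t₀)]
  have h3 := finrank_span_eq_card hli
  rw [Fintype.card_fin] at h3
  rw [← h3]
  refine Submodule.finrank_mono ?_
  rw [Submodule.span_le]
  rintro _ ⟨c, rfl⟩
  have h4 : (⋀[K]^(k - d (ι c)) V).map (LinearMap.mulLeft K (lin f g t (ι c)))
      ≤ part d (lin f g t) Finset.univ k :=
    le_iSup₂_of_le (ι c) (Finset.mem_univ _) (le_iSup_of_le (hι c) le_rfl)
  refine h4 ⟨a c, ha c, ?_⟩
  rw [LinearMap.mulLeft_apply]
  unfold lin
  rw [add_mul, smul_mul_assoc]

/-- tuples which are generic up to a degree -/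
lemma exists_gen [Infinite K] (d : r → ℕ) (m : ℕ) :
    ∃ f : r → ExteriorAlgebra K V, (∀ i, f i ∈ ⋀[K]^(d i) V) ∧
      ∀ k < m, ∀ g : r → ExteriorAlgebra K V, (∀ i, g i ∈ ⋀[K]^(d i) V) →
        finrank K (part d g Finset.univ k) ≤ finrank K (part d f Finset.univ k) := by
  induction m with
  | zero => exact ⟨0, fun i => Submodule.zero_mem _, fun k hk => by omega⟩
  | succ m ih =>
    obtain ⟨f, hf, hf2⟩ := ih
    obtain ⟨g, hg, hg2⟩ : ∃ g : r → ExteriorAlgebra K V, (∀ i, g i ∈ ⋀[K]^(d i) V) ∧
        ∀ h : r → ExteriorAlgebra K V, (∀ i, h i ∈ ⋀[K]^(d i) V) →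
        finrank K (part d h Finset.univ m) ≤ finrank K (part d g Finset.univ m) := by
      let T := {g : r → ExteriorAlgebra K V // ∀ i, g i ∈ ⋀[K]^(d i) V}
      have hT : Nonempty T := ⟨⟨0, fun i => Submodule.zero_mem _⟩⟩
      let μ : T → ℕ := fun g => finrank K (ExteriorAlgebra K V) - finrank K (part d g.1 Finset.univ m)
      obtain ⟨g, hg⟩ : ∃ g : T, ∀ h : T, μ g ≤ μ h :=
        ⟨Function.argmin μ, fun h => Function.argmin_le μ h⟩
      refine ⟨g.1, g.2, fun h hh => ?_⟩
      have h1 := hg ⟨h, hh⟩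
      have h2 := Submodule.finrank_le (part d h Finset.univ m)
      have h3 := Submodule.finrank_le (part d g.1 Finset.univ m)
      simp only [μ] at h1
      omega
    let bad : Set K := (⋃ k ∈ Finset.range m, {t : K | finrank K (part d (lin f g t) Finset.univ k)
      < finrank K (part d (lin f g 0) Finset.univ k)}) ∪ {t : K | finrank K (part d (lin f g t) Finset.univ m)
      < finrank K (part d (lin f g 1) Finset.univ m)}
    have hbad : bad.Finite := by
      refine Set.Finite.union ?_ (semi d f g m 1)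
      exact Set.Finite.biUnion (Finset.finite_toSet _) fun k _ => semi d f g k 0
    obtain ⟨t, ht⟩ := hbad.infinite_compl.nonempty
    refine ⟨lin f g t, lin_mem hf hg t, ?_⟩
    intro k hk h hh
    rw [Set.mem_compl_iff] at ht
    simp only [bad, Set.mem_union, Set.mem_iUnion, Set.mem_setOf_eq, not_or, not_exists, not_lt] at ht
    rcases Nat.lt_succ_iff_lt_or_eq.1 hk with h1 | h1
    · have h2 := ht.1 k (Finset.mem_range.2 h1)
      rw [lin_zero] at h2
      exact le_trans (hf2 k h1 h hh) h2
    · have h2 := ht.2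
      rw [lin_one] at h2
      rw [h1]
      exact le_trans (hg2 h hh) h2

end Pool.Agent.H36EXT
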