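import Mathlib
import Pool.Agent.H36EXT.Ops

set_option autoImplicit false

namespace Pool.Agent.H36EXT

open ExteriorAlgebra Module
open Pool.Agent.Results.MP_a0e599_al.Main

universe u v

variable {K : Type u} [Field K] {n : ℕ} {V : Type v} [AddCommGroup V] [Module K V]
  {e : Module.Basis (Fin n) K V} {r : Type*} [DecidableEq r] {M : ℕ} {d : r → ℕ}

/-- general: an injective operator on `X` which preserves `X ⊓ I`: preimages of `I` lie in `I` -/
lemma inv_gen {E : Type*} [AddCommGroup E] [Module K E] [FiniteDimensional K E]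
    (A : E →ₗ[K] E) (X I : Submodule K E) (hX : ∀ x ∈ X, A x ∈ X) (hI : ∀ x ∈ I, A x ∈ I)
    (hinj : ∀ x ∈ X, A x = 0 → x = 0) {v : E} (hv : v ∈ X) (h : A v ∈ I) : v ∈ I := by
  obtain ⟨Y, hY⟩ : ∃ Y, Y = X ⊓ I := ⟨_, rfl⟩
  have hYA : ∀ x ∈ Y, A x ∈ Y := by
    intro x hx
    rw [hY] at hx ⊢
    exact ⟨hX x hx.1, hI x hx.2⟩
  let A' : Y →ₗ[K] Y := A.restrict hYA
  have hinj' : Function.Injective A' := by
    rw [← LinearMap.ker_eq_bot, LinearMap.ker_eq_bot']
    intro y hy
    have h1 : A y = 0 := congrArg Subtype.val hy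
    have h2 : (y : E) ∈ X := by
      have h3 : (y : E) ∈ X ⊓ I := by
        rw [← hY]
        exact y.2
      exact h3.1
    exact Subtype.ext (hinj y h2 h1)
  have hsurj : Function.Surjective A' := LinearMap.injective_iff_surjective.1 hinj'
  have hAv : A v ∈ Y := by
    rw [hY]
    exact ⟨hX v hv, h⟩
  obtain ⟨y, hy⟩ := hsurj ⟨A v, hAv⟩
  have h1 : A y = A v := congrArg Subtype.val hy
  have hyX : (y : E) ∈ X ∧ (y : E) ∈ I := by
    have h3 : (y : E) ∈ X ⊓ I := by
      rw [← hY]
      exact y.2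
    exact h3
  have h2 : A (v - y) = 0 := by rw [map_sub, h1, sub_self]
  have h3 := hinj _ (X.sub_mem hv hyX.1) h2
  rw [sub_eq_zero.1 h3]
  exact hyX.2

/-- degrees of `D` -/
lemma DO_mem (B : Blocks n r M d) (w : Fin M → K) (i : r) {t : ℕ} {x : ExteriorAlgebra K V}
    (hx : x ∈ ⋀[K]^(t + d i) V) : DO e B w i x ∈ ⋀[K]^t V := by
  rw [DO_apply]
  refine Submodule.sum_mem _ fun j _ => Submodule.smul_mem _ _ ?_
  rw [← gr_nat] at hx
  have h := dels_mem (e := e) (B.T i j) (t + d i) hx
  rw [B.len] at h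
  have e1 : (((t + d i : ℕ) : ℤ) - (d i : ℤ)) = (t : ℤ) := by push_cast; ring
  rw [e1, gr_nat] at h
  exact h

lemma DO_low (B : Blocks n r M d) (w : Fin M → K) (i : r) {t : ℕ} (ht : t < d i)
    {x : ExteriorAlgebra K V} (hx : x ∈ ⋀[K]^t V) : DO e B w i x = 0 := by
  rw [DO_apply]
  refine Finset.sum_eq_zero fun j _ => ?_
  rw [← gr_nat] at hx
  have h := dels_mem (e := e) (B.T i j) t hx
  rw [B.len] at h
  unfold gr at h
  rw [if_neg (by omega)] at h
  rw [(Submodule.mem_bot K).1 h, smul_zero]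

lemma hh_mem (B : Blocks n r M d) (w : Fin M → K) (i : r) {t : ℕ} {x : ExteriorAlgebra K V}
    (hx : x ∈ ⋀[K]^t V) : hh e B w i x ∈ ⋀[K]^t V := by
  rw [hh_apply]
  have h1 : ff e B i * x ∈ ⋀[K]^(t + d i) V := by
    rw [add_comm]
    exact mul_mem (ff_mem (e := e) B i) hx
  refine Submodule.sub_mem _ (DO_mem B w i h1) (Submodule.smul_mem _ _ ?_)
  by_cases ht : d i ≤ t
  · obtain ⟨s, rfl⟩ : ∃ s, t = s + d i := ⟨t - d i, by omega⟩
    have h2 := mul_mem (ff_mem (e := e) B i) (DO_mem (e := e) B w i hx)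
    rwa [add_comm] at h2
  · rw [DO_low B w i (by omega) hx, mul_zero]
    exact Submodule.zero_mem _

lemma hh_coord (B : Blocks n r M d) (w : Fin M → K) (i : r) (x : ExteriorAlgebra K V)
    (U : Finset (Fin n)) : (BB e).repr (hh e B w i x) U = cc B w i U * (BB e).repr x U := by
  have key : (BB e).coord U ∘ₗ hh e B w i = cc B w i U • (BB e).coord U := by
    refine (BB e).ext fun W => ?_
    rw [LinearMap.comp_apply, hh_eig B w i (isEig_BB W), map_smul, LinearMap.smul_apply]
    simp only [Module.Basis.coord_apply, Module.Basis.repr_self, Finsupp.single_apply, smul_eq_mul]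
    by_cases hWU : W = U
    · rw [hWU]
    · rw [if_neg hWU, mul_zero, mul_zero]
  exact congrArg (fun L => L x) key

lemma inv_hh (B : Blocks n r M d) (w : Fin M → K) (i : r) (I : Submodule K (ExteriorAlgebra K V))
    (hI : ∀ x ∈ I, hh e B w i x ∈ I) (c : K) {t : ℕ} (hc : ∀ U : Finset (Fin n), U.card = t →
      cc B w i U ≠ c) {v : ExteriorAlgebra K V} (hv : v ∈ ⋀[K]^t V)
    (h : hh e B w i v - c • v ∈ I) : v ∈ I := by
  have hfin : Module.Finite K V := Module.Finite.of_basis e
  have hfd : FiniteDimensional K (ExteriorAlgebra K V) := Module.Finite.of_basis (BB e)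
  refine inv_gen (hh e B w i - c • LinearMap.id) (⋀[K]^t V) I ?_ ?_ ?_ hv h
  · intro x hx
    exact Submodule.sub_mem _ (hh_mem B w i hx) (Submodule.smul_mem _ _ hx)
  · intro x hx
    exact Submodule.sub_mem _ (hI x hx) (Submodule.smul_mem _ _ hx)
  · intro x hx h0
    have h0' : hh e B w i x = c • x := by
      rw [LinearMap.sub_apply, LinearMap.smul_apply, LinearMap.id_apply, sub_eq_zero] at h0
      exact h0
    apply (BB e).repr.injective
    rw [map_zero]
    ext U
    rw [Finsupp.zero_apply]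
    by_cases hU : U.card = t
    · have h1 := hh_coord B w i x U (e := e)
      rw [h0', map_smul, Finsupp.smul_apply, smul_eq_mul] at h1
      have h2 : (cc B w i U - c) * (BB e).repr x U = 0 := by
        rw [sub_mul, h1, sub_self]
      exact (mul_eq_zero.1 h2).resolve_left (sub_ne_zero.2 (hc U hU))
    · exact repr_of_mem hx U hU

/-- the right ideal of the special forms -/
noncomputable def JJ (e : Module.Basis (Fin n) K V) (B : Blocks n r M d) (S : Finset r) :
    Submodule K (ExteriorAlgebra K V) := ⨆ l ∈ S, LinearMap.range (LinearMap.mulLeft K (ff e B l))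

lemma JJ_mul (B : Blocks n r M d) (S : Finset r) (i : r) {x : ExteriorAlgebra K V}
    (hx : x ∈ JJ e B S) : ff e B i * x ∈ JJ e B S := by
  have h : JJ e B S ≤ (JJ e B S).comap (LinearMap.mulLeft K (ff e B i)) := by
    refine iSup₂_le fun l hl => ?_
    rintro _ ⟨a, rfl⟩
    rw [Submodule.mem_comap]
    simp only [LinearMap.mulLeft_apply]
    rw [← mul_assoc, gcomm (ff_mem B i) (ff_mem B l), smul_mul_assoc, mul_assoc]
    refine Submodule.smul_mem _ _ ?_
    have h4 : LinearMap.range (LinearMap.mulLeft K (ff e B l)) ≤ JJ e B S := le_iSup₂_of_le l hl le_rfl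
    exact h4 ⟨_, rfl⟩
  exact h hx

lemma DO_ff (B : Blocks n r M d) (w : Fin M → K) {i l : r} (hil : i ≠ l) (x : ExteriorAlgebra K V) :
    DO e B w i (ff e B l * x) = (-1 : K) ^ (d l * d i) • (ff e B l * DO e B w i x) := by
  rw [DO_apply, DO_apply]
  unfold ff
  simp only [Finset.sum_mul, map_sum, Finset.mul_sum, Finset.smul_sum]
  refine Finset.sum_congr rfl fun j _ => Finset.sum_congr rfl fun j' _ => ?_
  have hne : (i, j) ≠ (l, j') := fun hc => hil (Prod.mk.inj hc).1
  rw [dels_lmono_mul _ _ (B.disj i j l j' hne), B.len, B.len, mul_smul_comm, smul_comm]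

lemma JJ_DO (B : Blocks n r M d) (w : Fin M → K) (S : Finset r) {i : r} (hi : i ∉ S)
    {x : ExteriorAlgebra K V} (hx : x ∈ JJ e B S) : DO e B w i x ∈ JJ e B S := by
  have h : JJ e B S ≤ (JJ e B S).comap (DO e B w i) := by
    refine iSup₂_le fun l hl => ?_
    rintro _ ⟨a, rfl⟩
    rw [Submodule.mem_comap]
    simp only [LinearMap.mulLeft_apply]
    have hil : i ≠ l := fun hc => hi (hc ▸ hl)
    rw [DO_ff B w hil]
    refine Submodule.smul_mem _ _ ?_
    have h4 : LinearMap.range (LinearMap.mulLeft K (ff e B l)) ≤ JJ e B S := le_iSup₂_of_le l hl le_rfl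
    exact h4 ⟨_, rfl⟩
  exact h hx

lemma JJ_hh (B : Blocks n r M d) (w : Fin M → K) (S : Finset r) {i : r} (hi : i ∉ S)
    {x : ExteriorAlgebra K V} (hx : x ∈ JJ e B S) : hh e B w i x ∈ JJ e B S := by
  rw [hh_apply]
  exact Submodule.sub_mem _ (JJ_DO B w S hi (JJ_mul B S i hx))
    (Submodule.smul_mem _ _ (JJ_mul B S i (JJ_DO B w S hi hx)))

/-- odd degree: exactness -/
lemma odd_exact (B : Blocks n r M d) (w : Fin M → K) (S : Finset r) {i : r} (hi : i ∉ S)
    (ho : Odd (d i)) (h2 : (2 : K) ≠ 0) {t : ℕ} (hc : ∀ U : Finset (Fin n), U.card = t → cc B w i U ≠ 0)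
    {u : ExteriorAlgebra K V} (hu : u ∈ ⋀[K]^t V) (hfu : ff e B i * u ∈ JJ e B S) :
    u ∈ JJ e B S ⊔ LinearMap.range (LinearMap.mulLeft K (ff e B i)) := by
  have hs : (-1 : K) ^ (d i * d i) = -1 := (ho.mul ho).neg_one_pow
  have hsq : ff e B i * ff e B i = 0 := sq_zero_odd h2 ho (ff_mem B i)
  refine inv_hh (e := e) B w i _ ?_ 0 hc hu ?_
  · intro x hx
    obtain ⟨y, hy, z, ⟨a, rfl⟩, rfl⟩ := Submodule.mem_sup.1 hx
    rw [map_add]
    refine Submodule.add_mem _ (Submodule.mem_sup_left (JJ_hh B w S hi hy)) ?_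
    refine Submodule.mem_sup_right ?_
    rw [LinearMap.mulLeft_apply, hh_apply, ← mul_assoc, hsq, zero_mul, map_zero, zero_sub, hs,
      neg_smul, one_smul, neg_neg]
    exact ⟨_, rfl⟩
  · rw [zero_smul, sub_zero, hh_apply, hs, neg_smul, one_smul, sub_neg_eq_add]
    exact Submodule.add_mem _ (Submodule.mem_sup_left (JJ_DO B w S hi hfu))
      (Submodule.mem_sup_right ⟨_, rfl⟩)

lemma hh_DO_pow (B : Blocks n r M d) (i : r) (hd : 1 ≤ d i) (he : Even (d i)) (m : ℕ)
    (x : ExteriorAlgebra K V) :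
    hh e B 1 i ((DO e B 1 i ^ m) x) = (DO e B 1 i ^ m) (hh e B 1 i x)
      + (2 * m : K) • (DO e B 1 i ^ m) x := by
  induction m with
  | zero => simp
  | succ m ih =>
    rw [pow_succ', Module.End.mul_apply, hh_DO B i hd he, ih, Module.End.mul_apply, map_add, map_smul,
      add_assoc, ← add_smul]
    congr 2
    push_cast
    ring

lemma comm_pow (B : Blocks n r M d) (i : r) (hd : 1 ≤ d i) (he : Even (d i)) (m : ℕ)
    (x : ExteriorAlgebra K V) :
    (DO e B 1 i ^ (m + 1)) (ff e B i * x) - ff e B i * (DO e B 1 i ^ (m + 1)) x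
      = (m + 1 : K) • (hh e B 1 i ((DO e B 1 i ^ m) x) - (m : K) • (DO e B 1 i ^ m) x) := by
  have hs : (-1 : K) ^ (d i * d i) = 1 := (he.mul_right _).neg_one_pow
  have hcom : ∀ y, DO e B 1 i (ff e B i * y) = ff e B i * DO e B 1 i y + hh e B 1 i y := by
    intro y
    rw [hh_apply, hs, one_smul]
    abel
  induction m with
  | zero =>
    simp only [zero_add, pow_one, pow_zero, Module.End.one_apply, Nat.cast_zero, zero_smul, sub_zero,
      one_smul]
    rw [hcom]
    abel
  | succ m ih =>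
    have e1 : (DO e B 1 i ^ (m + 1 + 1)) (ff e B i * x)
        = DO e B 1 i ((DO e B 1 i ^ (m + 1)) (ff e B i * x)) := by
      rw [pow_succ', Module.End.mul_apply]
    have e2 : (DO e B 1 i ^ (m + 1 + 1)) x = DO e B 1 i ((DO e B 1 i ^ (m + 1)) x) := by
      rw [pow_succ', Module.End.mul_apply]
    have e3 : (DO e B 1 i ^ (m + 1)) (ff e B i * x) = ff e B i * (DO e B 1 i ^ (m + 1)) x
        + (m + 1 : K) • (hh e B 1 i ((DO e B 1 i ^ m) x) - (m : K) • (DO e B 1 i ^ m) x) := by
      rw [← ih]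
      abel
    have e4 : DO e B 1 i (hh e B 1 i ((DO e B 1 i ^ m) x))
        = hh e B 1 i ((DO e B 1 i ^ (m + 1)) x) - (2 : K) • (DO e B 1 i ^ (m + 1)) x := by
      have h5 := hh_DO (e := e) B i hd he ((DO e B 1 i ^ m) x)
      rw [pow_succ', Module.End.mul_apply, h5]
      abel
    have e5 : DO e B 1 i ((DO e B 1 i ^ m) x) = (DO e B 1 i ^ (m + 1)) x := by
      rw [pow_succ', Module.End.mul_apply]
    rw [e1, e2, e3, map_add, hcom, map_smul, map_sub, map_smul, e4, e5]
    push_cast
    module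

/-- even degree: injectivity -/
lemma even_exact [CharZero K] (B : Blocks n r M d) (S : Finset r) {i : r} (hi : i ∉ S) (hd : 1 ≤ d i)
    (he : Even (d i)) {t : ℕ} (hc : ∀ m ≤ t, ∀ U : Finset (Fin n), U.card ≤ t → cc B (1 : Fin M → K) i U ≠ (m : K))
    {u : ExteriorAlgebra K V} (hu : u ∈ ⋀[K]^t V) (hfu : ff e B i * u ∈ JJ e B S) :
    u ∈ JJ e B S := by
  have hpow : ∀ m, ∀ x ∈ JJ e B S, (DO e B 1 i ^ m) x ∈ JJ e B S := by
    intro m
    induction m with
    | zero => intro x hx; simpa using hx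
    | succ m ih =>
      intro x hx
      rw [pow_succ', Module.End.mul_apply]
      exact JJ_DO B 1 S hi (ih x hx)
  -- degrees of the powers
  have hdeg : ∀ m, (m * d i ≤ t → (DO e B 1 i ^ m) u ∈ ⋀[K]^(t - m * d i) V) ∧
      (t < m * d i → (DO e B 1 i ^ m) u = 0) := by
    intro m
    induction m with
    | zero => exact ⟨fun _ => by simpa using hu, fun h => by omega⟩
    | succ m ih =>
      obtain ⟨ih1, ih2⟩ := ih
      have e0 : (m + 1) * d i = m * d i + d i := by ring
      constructor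
      · intro hm
        rw [pow_succ', Module.End.mul_apply]
        have h1 := ih1 (by omega)
        have e1 : t - m * d i = (t - (m + 1) * d i) + d i := by omega
        rw [e1] at h1
        exact DO_mem B 1 i h1
      · intro hm
        rw [pow_succ', Module.End.mul_apply]
        by_cases hmt : t < m * d i
        · rw [ih2 hmt, map_zero]
        · exact DO_low B 1 i (by omega) (ih1 (by omega))
  -- descending induction
  have main : ∀ k m, m + k = t + 1 → (DO e B 1 i ^ m) u ∈ JJ e B S := by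
    intro k
    induction k with
    | zero =>
      intro m hm
      have h1 : t < m * d i := by
        have := Nat.mul_le_mul_left m hd
        omega
      rw [(hdeg m).2 h1]
      exact Submodule.zero_mem _
    | succ k ih =>
      intro m hm
      have h1 := ih (m + 1) (by omega)
      by_cases hmt : t < m * d i
      · rw [(hdeg m).2 hmt]
        exact Submodule.zero_mem _
      have h2 := comm_pow (e := e) B i hd he m u
      have h3 : (DO e B 1 i ^ (m + 1)) (ff e B i * u) - ff e B i * (DO e B 1 i ^ (m + 1)) u ∈ JJ e B S :=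
        Submodule.sub_mem _ (hpow _ _ hfu) (JJ_mul B S i h1)
      rw [h2] at h3
      have h4 : (m + 1 : K) ≠ 0 := by exact_mod_cast Nat.succ_ne_zero m
      have h5 := Submodule.smul_mem (JJ e B S) ((m + 1 : K)⁻¹) h3
      rw [smul_smul, inv_mul_cancel₀ h4, one_smul] at h5
      have hmt' : m ≤ t := by
        have := Nat.mul_le_mul_left m hd
        omega
      exact inv_hh (e := e) B 1 i (JJ e B S) (fun x hx => JJ_hh B 1 S hi hx) (m : K)
        (fun U hU => hc m hmt' U (by omega)) ((hdeg m).1 (by omega)) h5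
  have := main (t + 1) 0 (by omega)
  simpa using this

end Pool.Agent.H36EXT
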