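import Mathlib
import Pool.Agent.H36EXT.Inv

set_option autoImplicit false

namespace Pool.Agent.H36EXT

open ExteriorAlgebra Module PowerSeries

universe u v

variable {K : Type u} [Field K] {n : ℕ} {V : Type v} [AddCommGroup V] [Module K V]
  {e : Module.Basis (Fin n) K V} {r : Type*} [DecidableEq r] {M : ℕ} {d : r → ℕ}

lemma JJ_component (B : Blocks n r M d) (S : Finset r) {x : ExteriorAlgebra K V}
    (hx : x ∈ JJ e B S) (k : ℕ) :
    ((DirectSum.decompose (fun i : ℕ => ⋀[K]^i V) x k : ⋀[K]^k V) : ExteriorAlgebra K V)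
      ∈ part d (ff e B) S k := by
  let Y : Submodule K (ExteriorAlgebra K V) :=
    { carrier := {x | ((DirectSum.decompose (fun i : ℕ => ⋀[K]^i V) x k : ⋀[K]^k V) :
        ExteriorAlgebra K V) ∈ part d (ff e B) S k}
      add_mem' := by
        intro a b ha hb
        simp only [Set.mem_setOf_eq] at ha hb ⊢
        rw [DirectSum.decompose_add]
        exact Submodule.add_mem _ ha hb
      zero_mem' := by
        simp only [Set.mem_setOf_eq]
        rw [DirectSum.decompose_zero]
        exact Submodule.zero_mem _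
      smul_mem' := by
        intro c a ha
        simp only [Set.mem_setOf_eq] at ha ⊢
        rw [DirectSum.decompose_smul]
        exact Submodule.smul_mem _ c ha }
  have h : JJ e B S ≤ Y := by
    refine iSup₂_le fun i hi => ?_
    rintro _ ⟨a, rfl⟩
    change ((DirectSum.decompose (fun i : ℕ => ⋀[K]^i V) (LinearMap.mulLeft K (ff e B i) a) k :
      ⋀[K]^k V) : ExteriorAlgebra K V) ∈ part d (ff e B) S k
    rw [LinearMap.mulLeft_apply]
    by_cases h : d i ≤ k
    · rw [DirectSum.coe_decompose_mul_of_left_mem_of_le (fun i : ℕ => ⋀[K]^i V)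
        (ff_mem (e := e) B i) h]
      have h4 : (⋀[K]^(k - d i) V).map (LinearMap.mulLeft K (ff e B i)) ≤ part d (ff e B) S k :=
        le_iSup₂_of_le i hi (le_iSup_of_le h le_rfl)
      exact h4 ⟨_, Subtype.prop _, rfl⟩
    · rw [DirectSum.coe_decompose_mul_of_left_mem_of_not_le (fun i : ℕ => ⋀[K]^i V)
        (ff_mem (e := e) B i) h]
      exact Submodule.zero_mem _
  exact h hx

lemma JJ_to_part (B : Blocks n r M d) (S : Finset r) {k : ℕ} {x : ExteriorAlgebra K V}
    (hx : x ∈ JJ e B S) (hk : x ∈ ⋀[K]^k V) : x ∈ part d (ff e B) S k := by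
  have h := JJ_component B S hx k
  rwa [DirectSum.decompose_of_mem_same (fun i : ℕ => ⋀[K]^i V) hk] at h

lemma part_to_JJ (B : Blocks n r M d) (S : Finset r) (k : ℕ) :
    part d (ff e B) S k ≤ JJ e B S := by
  refine iSup₂_le fun i hi => iSup_le fun h => ?_
  rintro _ ⟨a, _, rfl⟩
  have h4 : LinearMap.range (LinearMap.mulLeft K (ff e B i)) ≤ JJ e B S := le_iSup₂_of_le i hi le_rfl
  exact h4 ⟨_, rfl⟩

variable [Module.Finite K V]

lemma even_ex [CharZero K] (B : Blocks n r M d) (S : Finset r) {i : r} (hi : i ∉ S) (hd : 1 ≤ d i)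
    (he : Even (d i)) {k : ℕ} (hk : d i ≤ k) (hc : ∀ m ≤ k, ∀ U : Finset (Fin n), U.card ≤ k →
      cc B (1 : Fin M → K) i U ≠ (m : K)) : ex d (ff e B) S i k = 0 := by
  have h : kern d (ff e B) S i k = part d (ff e B) S (k - d i) := by
    refine le_antisymm ?_ (part_le_kern (fun i => ff_mem (e := e) B i) S i hk)
    rintro u ⟨hu1, hu2⟩
    refine JJ_to_part B S ?_ hu1
    refine even_exact (e := e) B S hi hd he (t := k - d i) ?_ hu1 (part_to_JJ B S k hu2)
    intro m hm U hU
    exact hc m (by omega) U (by omega)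
  unfold ex
  rw [h, sub_self]

lemma odd_Q (B : Blocks n r M d) (w : Fin M → K) (S : Finset r) {i : r} (hi : i ∉ S)
    (ho : Odd (d i)) (h2 : (2 : K) ≠ 0) {k : ℕ} (hk : d i ≤ k)
    (hc : ∀ U : Finset (Fin n), U.card ≤ k → cc B w i U ≠ 0) :
    Q d (ff e B) S k = Q d (ff e B) (insert i S) k + Q d (ff e B) (insert i S) (k - d i) := by
  have hf : ∀ i, ff e B i ∈ ⋀[K]^(d i) V := fun i => ff_mem (e := e) B i
  have h : kern d (ff e B) S i k = part d (ff e B) (insert i S) (k - d i) := by
    refine le_antisymm ?_ ?_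
    · rintro u ⟨hu1, hu2⟩
      refine JJ_to_part B _ ?_ hu1
      have h3 := odd_exact (e := e) B w S hi ho h2 (t := k - d i) (fun U hU => hc U (by omega)) hu1
        (part_to_JJ B S k hu2)
      unfold JJ at h3 ⊢
      rw [Finset.iSup_insert, sup_comm]
      exact h3
    · refine le_inf (part_le hf _ _) ?_
      refine iSup₂_le fun j hj => iSup_le fun hj2 => ?_
      rcases Finset.mem_insert.1 hj with rfl | hj
      · rintro _ ⟨a, ha, rfl⟩
        rw [Submodule.mem_comap]
        simp only [LinearMap.mulLeft_apply]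
        rw [← mul_assoc, sq_zero_odd h2 ho (hf j), zero_mul]
        exact Submodule.zero_mem _
      · refine le_trans ?_ (mul_part hf S i hk)
        exact le_iSup₂_of_le j hj (le_iSup_of_le hj2 le_rfl)
  rw [Q_insert_of_le S i hk]
  unfold ex
  rw [h]
  unfold Q
  ring

lemma DD_odd_eq {f : r → ExteriorAlgebra K V} (S : Finset r) (i : r) (hi : i ∉ S) (hd : 1 ≤ d i)
    (ho : ¬ Even (d i)) (k : ℕ) (hk : d i ≤ k →
      Q d f S k = Q d f (insert i S) k + Q d f (insert i S) (k - d i)) :
    coeff k (DD d f S) = coeff k (DD d f (insert i S))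
      + (if d i ≤ k then coeff (k - d i) (DD d f (insert i S)) else 0) := by
  have h3 : (1 + X ^ d i) * PP d (insert i S) = PP d S := by
    unfold PP
    rw [Finset.prod_insert hi, if_neg ho, ← mul_assoc, PowerSeries.mul_inv_cancel, one_mul]
    rw [map_add, map_pow, constantCoeff_X, zero_pow (by omega), map_one, add_zero]
    exact one_ne_zero
  have h4 : DD d f (insert i S) + X ^ d i * DD d f (insert i S)
      = (H d f (insert i S) + X ^ d i * H d f (insert i S)) - (1 + X) ^ finrank K V * PP d S := by
    rw [← h3]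
    unfold DD
    ring
  have h5 : coeff k (DD d f (insert i S)) + (if d i ≤ k then coeff (k - d i) (DD d f (insert i S)) else 0)
      = coeff k (DD d f (insert i S) + X ^ d i * DD d f (insert i S)) := by
    rw [map_add, coeff_X_mul]
  rw [h5, h4]
  have h6 : coeff k (DD d f S) = coeff k (H d f S) - coeff k ((1 + X) ^ finrank K V * PP d S) := by
    unfold DD
    rw [map_sub]
  rw [h6, map_sub, map_add, coeff_X_mul]
  have h7 : coeff k (H d f S) = coeff k (H d f (insert i S))
      + (if d i ≤ k then coeff (k - d i) (H d f (insert i S)) else 0) := by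
    unfold H
    simp only [coeff_mk]
    split_ifs with h
    · exact hk h
    · rw [Q_insert_of_lt S i (by omega), add_zero]
  linarith

/-- the special forms have the expected series up to degree `K₀` -/
theorem special (B : Blocks n r M d) (w : Fin M → K) (h2 : (2 : K) ≠ 0) (hd : ∀ i, 1 ≤ d i) (K₀ : ℕ)
    (hE : ∀ i, Even (d i) → CharZero K ∧ ∀ m ≤ K₀, ∀ U : Finset (Fin n), U.card ≤ K₀ →
      cc B (1 : Fin M → K) i U ≠ (m : K))
    (hO : ∀ i, Odd (d i) → ∀ U : Finset (Fin n), U.card ≤ K₀ → cc B w i U ≠ 0) (S : Finset r) :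
    ∀ k ≤ K₀, coeff k (DD d (ff e B) S) = 0 := by
  induction S using Finset.induction_on with
  | empty =>
    intro k _
    rw [DD_empty]
    simp
  | insert i S hi ih =>
    by_cases he : Even (d i)
    · intro k hk
      obtain ⟨hE1, hE2⟩ := hE i he
      rw [DD_even S i hi he k, ih k hk]
      have h1 : coeff k (EX d (ff e B) S i) = 0 := by
        unfold EX
        rw [coeff_mk]
        split_ifs with h
        · exact even_ex B S hi (hd i) he h (fun m hm U hU => hE2 m (by omega) U (by omega))
        · rfl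
      rw [h1]
      split_ifs with h
      · rw [ih (k - d i) (by omega)]
        ring
      · ring
    · have ho := Nat.not_even_iff_odd.1 he
      intro k
      induction k using Nat.strong_induction_on with
      | _ k ihk =>
        intro hk
        have h1 := DD_odd_eq (f := ff e B) S i hi (hd i) he k (fun hik =>
          odd_Q B w S hi ho h2 hik (fun U hU => hO i ho U (by omega)))
        rw [ih k hk] at h1
        split_ifs at h1 with h
        · have hdi := hd i
          rw [ihk (k - d i) (by omega) (by omega)] at h1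
          linarith
        · linarith

end Pool.Agent.H36EXT
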